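import Pool.Agent.Helper30.KC.GoalsT
import Pool.Agent.Helper1.KC.IJ

/-!
# Project KT, packet IJ2: the development is injective, or there is a balloon
-/

set_option autoImplicit false

namespace Pool.Agent.Helper12.KT

open scoped Classical
open Finset
open Pool.Agent.Helper94.KC
open Pool.Agent.Helper30.KC
open Pool.Agent.Helper1.KC (Sec cc hn_le le_hn hn_neg hn_comb cc_diff cc_diff' cc_ball cc_straight dec
  exWalk cyc)

/-- a point of the ball is mapped to a vertex at distance at most its norm -/
theorem distDev {V : Type} [Fintype V] (T : Finset (Finset V)) (f : ℤ × ℤ → V) (hD : Dev T 6 f)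
    (p : ℤ × ℤ) (hp : hn p ≤ 6) : (sk T).dist (f (0, 0)) (f p) ≤ hn p := by
  obtain ⟨u, u', a, b, hsec, hv, hab⟩ := dec p
  let c : ℕ → ℤ × ℤ := cc (0, 0) u u' a
  have hc0 : c 0 = (0, 0) := by
    have k5 : ((min 0 a : ℕ) : ℤ) = 0 := by omega
    have k6 : ((0 - a : ℕ) : ℤ) = 0 := by omega
    simp only [c, cc, k5, k6, zero_mul, add_zero]
  have hcl : c (a + b) = p := by
    have k5 : ((min (a + b) a : ℕ) : ℤ) = a := by omega
    have k6 : ((a + b - a : ℕ) : ℤ) = b := by omega
    rw [hv]
    simp only [c, cc, k5, k6, zero_add]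
  have hball : ∀ i, i ≤ a + b → hn (c i) ≤ 6 := by
    intro i hi
    refine cc_ball hsec hi ?_ ?_
    · change hn (c 0) ≤ 6
      rw [hc0]
      exact Nat.zero_le 6
    · change hn (c (a + b)) ≤ 6
      rw [hcl]
      exact hp
  have hadj : ∀ i < a + b, (sk T).Adj ((fun i => f (c i)) i) ((fun i => f (c i)) (i + 1)) := by
    intro i hi
    change (sk T).Adj (f (c i)) (f (c (i + 1)))
    rw [hD.nb (c i) (hball i hi.le)]
    refine ⟨c (i + 1), ?_, rfl⟩
    have := cc_diff (p := (0, 0)) hsec a (Nat.le_succ i)
    rw [show i.succ - i = 1 by omega] at this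
    exact this
  obtain ⟨w, hs, -⟩ := exWalk (sk T) (fun i => f (c i)) (a + b) hadj
  have hwl : w.length = a + b := by
    have h1 := SimpleGraph.Walk.length_support w
    rw [hs, List.length_map, List.length_range] at h1
    omega
  have h2 : (sk T).dist (f (c 0)) (f (c (a + b))) ≤ w.length := SimpleGraph.dist_le w
  rw [hwl, hc0, hcl, hab] at h2
  exact h2

theorem balloon (hGB : StmtGB2) (hST : StmtST) {V : Type} [Fintype V] (T : Finset (Finset V))
    (f : ℤ × ℤ → V) (hS : Surf T) (hE : EW T 13) (hD : Dev T 6 f)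
    (p q : ℤ × ℤ) (hp : hn p ≤ 6) (hq : hn q ≤ 6) (hpq : p ≠ q) (hf : f p = f q)
    (hmin : ∀ p' q', hn p' ≤ 6 → hn q' ≤ 6 → p' ≠ q' → f p' = f q' → hn (q - p) ≤ hn (q' - p')) :
    ∃ (y : V) (w : (sk T).Walk y y) (D : Finset (Finset V)) (v : V), w.IsCycle ∧ w.length ≤ 12 ∧
      (∀ z ∈ w.support, (sk T).dist (f (0, 0)) z ≤ 6) ∧ Disc T D (wed w) ∧ v ∈ vs D ∧
      v ∉ w.support ∧ dg T v ≤ 5 := by
  obtain ⟨u, u', a, b, hsec, hv, hab⟩ := dec (q - p)
  let c : ℕ → ℤ × ℤ := cc p u u' a
  have hc0 : c 0 = p := by
    have k5 : ((min 0 a : ℕ) : ℤ) = 0 := by omega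
    have k6 : ((0 - a : ℕ) : ℤ) = 0 := by omega
    simp only [c, cc, k5, k6, zero_mul, add_zero]
  have hcl : c (a + b) = q := by
    have k5 : ((min (a + b) a : ℕ) : ℤ) = a := by omega
    have k6 : ((a + b - a : ℕ) : ℤ) = b := by omega
    have hq : q = p + (q - p) := by abel
    rw [hq, hv]
    simp only [c, cc, k5, k6]
    ext
    · simp only [Prod.fst_add]
      ring
    · simp only [Prod.snd_add]
      ring
  let l := a + b
  have hl : l = hn (q - p) := hab
  have hball : ∀ i, i ≤ l → hn (c i) ≤ 6 := by
    intro i hi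
    refine cc_ball hsec hi ?_ ?_
    · change hn (c 0) ≤ 6
      rw [hc0]
      exact hp
    · change hn (c (a + b)) ≤ 6
      rw [hcl]
      exact hq
  have hcne : ∀ i j, i < j → c i ≠ c j := by
    intro i j hij he
    have := cc_diff (p := p) hsec a hij.le
    change hn (c j - c i) = j - i at this
    rw [he, sub_self] at this
    have h0 : hn (0 : ℤ × ℤ) = 0 := rfl
    omega
  let g : ℕ → V := fun i => f (c i)
  have hgl : g l = g 0 := by
    change f (c (a + b)) = f (c 0)
    rw [hcl, hc0, hf]
  have hginj : ∀ i j, i < j → j ≤ l → (i ≠ 0 ∨ j ≠ l) → g i ≠ g j := by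
    intro i j hij hjl hne he
    have h1 := hmin (c i) (c j) (hball i (by omega)) (hball j hjl) (hcne i j hij) he
    have h2 : hn (c j - c i) = j - i := cc_diff hsec a hij.le
    omega
  have hadj : ∀ i < l, (sk T).Adj (g i) (g (i + 1)) := by
    intro i hi
    rw [hD.nb (c i) (hball i hi.le)]
    refine ⟨c (i + 1), ?_, rfl⟩
    have := cc_diff (p := p) hsec a (Nat.le_succ i)
    rw [show i + 1 - i = 1 by omega] at this
    exact this
  -- length at least three
  have hl12 : l ≤ 12 := by
    have g1 := hn_le hp
    have g2 := hn_le hq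
    rw [hl]
    apply le_hn <;> simp only [Prod.fst_sub, Prod.snd_sub] <;> push_cast at * <;> omega
  have hl3 : 3 ≤ l := by
    by_contra hlt
    have hcases : l = 0 ∨ l = 1 ∨ l = 2 := by omega
    rcases hcases with h | h | h
    · apply hpq
      rw [← hc0, ← hcl]
      change c 0 = c l
      rw [h]
    · have := hadj 0 (by omega)
      have h1 : g 1 = g 0 := by
        rw [← hgl, h]
      rw [zero_add, h1] at this
      exact this.1 rfl
    · have hb := hball 1 (by omega)
      have h1 : hn (c 0 - c 1) = 1 := cc_diff' hsec a (Nat.zero_le 1)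
      have h2 : hn (c 2 - c 1) = 1 := cc_diff hsec a (by omega)
      have h3 : f (c 0) = f (c 2) := by
        have : g 2 = g 0 := by rw [← hgl, h]
        exact this.symm
      exact hcne 0 2 (by omega) (hD.inj (c 1) hb _ _ h1 h2 h3)
  obtain ⟨w, hw, hwl, hsupp, hwed⟩ := cyc (sk T) g l hl3 hadj hgl (by
    intro i j hi hil hj hjl he
    rcases lt_trichotomy i j with hij | hij | hij
    · exact absurd he (hginj i j hij hjl (Or.inl (by omega)))
    · exact hij
    · exact absurd he.symm (hginj j i hij hil (Or.inl (by omega))))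
  obtain ⟨D, hDisc⟩ := hE (g l) w hw (by omega)
  obtain ⟨hGB1, hGB2⟩ := hGB V T hS (g l) w hw D hDisc
  have hbd := hDisc.bdy
  -- the inner vertices
  have hST' : ∀ i, 1 ≤ i → i + 1 ≤ l →
      (i ≠ a → (D.filter (fun t => g i ∈ t)).card = 3) ∧
      2 ≤ (D.filter (fun t => g i ∈ t)).card := by
    intro i hi hil
    obtain ⟨k, rfl⟩ : ∃ k, i = k + 1 := ⟨i - 1, by omega⟩
    have d1 : hn (c k - c (k + 1)) = 1 := by
      have := cc_diff' (p := p) hsec a (Nat.le_succ k)
      rw [show k.succ - k = 1 by omega] at this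
      exact this
    have d2 : hn (c (k + 2) - c (k + 1)) = 1 := by
      have := cc_diff (p := p) hsec a (Nat.le_succ (k + 1))
      rw [show (k + 1).succ - (k + 1) = 1 by omega] at this
      exact this
    have d3 : hn (c (k + 2) - c k) = 2 := by
      have := cc_diff (p := p) (i := k) (j := k + 2) hsec a (by omega)
      rw [show k + 2 - k = 2 by omega] at this
      exact this
    have key := hST V T 6 f hS hD D hDisc.sub (c (k + 1)) (c k) (c (k + 2))
      (hball (k + 1) (by omega)) d1 d2 (hcne k (k + 2) (by omega)) (by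
        intro e he hpe
        rw [hbd, hwed]
        change e = {g l, g 1} ∨ _ ↔ e = {g (k + 1), g k} ∨ e = {g (k + 1), g (k + 2)}
        change g (k + 1) ∈ e at hpe
        constructor
        · rintro (rfl | ⟨j, hj, rfl⟩)
          · simp only [mem_insert, mem_singleton] at hpe
            rcases hpe with h | h
            · exact absurd h (hginj (k + 1) l (by omega) le_rfl (Or.inl (by omega)))
            · have hk : k = 0 := by
                by_contra hk
                exact hginj 1 (k + 1) (by omega) (by omega) (Or.inl (by omega)) h.symm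
              subst hk
              left
              rw [hgl, zero_add, Finset.pair_comm]
          · simp only [mem_insert, mem_singleton] at hpe
            rcases hpe with h | h
            · have hk : k + 1 = j + 1 := by
                rcases lt_trichotomy (k + 1) (j + 1) with hij | hij | hij
                · exact absurd h (hginj _ _ hij (by omega) (Or.inl (by omega)))
                · exact hij
                · exact absurd h.symm (hginj _ _ hij (by omega) (Or.inl (by omega)))
              have hk : k = j := by omega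
              subst hk
              right
              rfl
            · have hk : k + 1 = j + 2 := by
                rcases lt_trichotomy (k + 1) (j + 2) with hij | hij | hij
                · exact absurd h (hginj _ _ hij (by omega) (Or.inl (by omega)))
                · exact hij
                · exact absurd h.symm (hginj _ _ hij (by omega) (Or.inl (by omega)))
              have hk : k = j + 1 := by omega
              subst hk
              left
              rw [Finset.pair_comm]
        · rintro (rfl | rfl)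
          · rcases Nat.eq_zero_or_pos k with hk | hk
            · subst hk
              left
              rw [hgl, zero_add, Finset.pair_comm]
            · right
              refine ⟨k - 1, by omega, ?_⟩
              rw [show k - 1 + 1 = k by omega, show k - 1 + 2 = k + 1 by omega,
                Finset.pair_comm]
          · right
            exact ⟨k, by omega, rfl⟩)
    refine ⟨fun hia => key.1 ?_, key.2 d3⟩
    have := cc_straight p u u' (a := a) (i := k + 1) (by omega) hia
    rw [show k + 1 + 1 = k + 2 by omega, show k + 1 - 1 = k by omega] at this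
    exact this
  have hlast : 1 ≤ (D.filter (fun t => g l ∈ t)).card := by
    obtain ⟨t, ht, hgt⟩ := hGB1 (g l) ((hsupp (g l)).2 ⟨l, by omega, le_rfl, rfl⟩)
    exact Finset.card_pos.2 ⟨t, by simp [ht, hgt]⟩
  have himg : w.support.toFinset = (Finset.Icc 1 l).image g := by
    ext v
    rw [List.mem_toFinset, hsupp, Finset.mem_image]
    constructor
    · rintro ⟨i, h1, h2, h3⟩
      exact ⟨i, Finset.mem_Icc.2 ⟨h1, h2⟩, h3⟩
    · rintro ⟨i, h1, h3⟩
      exact ⟨i, (Finset.mem_Icc.1 h1).1, (Finset.mem_Icc.1 h1).2, h3⟩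
  rw [himg, Finset.sum_image (by
    intro i hi j hj he
    have hi := Finset.mem_Icc.1 hi
    have hj := Finset.mem_Icc.1 hj
    rcases lt_trichotomy i j with hij | hij | hij
    · exact absurd he (hginj i j hij hj.2 (Or.inl (by omega)))
    · exact hij
    · exact absurd he.symm (hginj j i hij hi.2 (Or.inl (by omega))))] at hGB2
  have hbound : ∀ i ∈ Finset.Icc 1 l, ((3 : ℤ) - (D.filter (fun t => g i ∈ t)).card) ≤
      (if i = l then 2 else 0) + (if i = a then 1 else 0) := by
    intro i hi
    have hi := Finset.mem_Icc.1 hi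
    by_cases h1 : i = l
    · rw [h1, if_pos rfl]
      have : (0 : ℤ) ≤ if l = a then 1 else 0 := by split_ifs <;> omega
      omega
    · rw [if_neg h1]
      obtain ⟨k1, k2⟩ := hST' i hi.1 (by omega)
      by_cases h2 : i = a
      · rw [if_pos h2]
        omega
      · rw [if_neg h2]
        have := k1 h2
        omega
  have hsum := Finset.sum_le_sum hbound
  rw [Finset.sum_add_distrib, Finset.sum_ite_eq', Finset.sum_ite_eq'] at hsum
  have h1 : (if l ∈ Finset.Icc 1 l then (2 : ℤ) else 0) ≤ 2 := by split_ifs <;> omega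
  have h2 : (if a ∈ Finset.Icc 1 l then (1 : ℤ) else 0) ≤ 1 := by split_ifs <;> omega
  have h3 : 0 < ∑ v ∈ (vs D).filter (fun v => v ∉ w.support), ((6 : ℤ) - dg T v) := by omega
  obtain ⟨v, hv, hvp⟩ := Finset.exists_lt_of_sum_lt (s := (vs D).filter (fun v => v ∉ w.support))
    (f := fun _ => (0 : ℤ)) (g := fun v => (6 : ℤ) - dg T v) (by simpa using h3)
  rw [Finset.mem_filter] at hv
  refine ⟨g l, w, D, v, hw, by omega, ?_, hDisc, hv.1, hv.2, by omega⟩
  intro z hz
  obtain ⟨i, hi1, hi2, rfl⟩ := (hsupp z).1 hz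
  exact (distDev T f hD (c i) (hball i hi2)).trans (hball i hi2)

/-- packet IJ2 -/
theorem pIJ2 (hGB : StmtGB2) (hST : StmtST) : StmtIJ2 := by
  intro V _ T f hS hE hD
  by_cases hcon : ∀ p q, hn p ≤ 6 → hn q ≤ 6 → f p = f q → p = q
  · exact Or.inl ⟨hcon, fun p hp => hD.nb p (by omega)⟩
  right
  simp only [not_forall] at hcon
  obtain ⟨p0, q0, hp0, hq0, hf0, hne0⟩ := hcon
  have hex : ∃ n, ∃ p q : ℤ × ℤ, hn p ≤ 6 ∧ hn q ≤ 6 ∧ p ≠ q ∧ f p = f q ∧ hn (q - p) = n :=
    ⟨_, p0, q0, hp0, hq0, hne0, hf0, rfl⟩
  obtain ⟨p, q, hp, hq, hpq, hf, hn1⟩ := Nat.find_spec hex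
  refine balloon hGB hST T f hS hE hD p q hp hq hpq hf ?_
  intro p' q' h1 h2 h3 h4
  rw [hn1]
  exact Nat.find_min' hex ⟨p', q', h1, h2, h3, h4, rfl⟩

end Pool.Agent.Helper12.KT
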